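import Mathlib

set_option linter.unusedSectionVars false
set_option linter.unusedVariables false

namespace CY

/-- Abel summation with a nonincreasing weight. -/
theorem rearr_abel (n : ℕ) : ∀ (a b b' : ℕ → ℕ),
    (∀ i < n, ∀ j < n, i ≤ j → a j ≤ a i) →
    (∀ k ≤ n, ∑ i ∈ Finset.range k, b i ≤ ∑ i ∈ Finset.range k, b' i) →
    ∑ i ∈ Finset.range n, a i * b i ≤ ∑ i ∈ Finset.range n, a i * b' i := by
  induction n with
  | zero => intro a b b' _ _; simp
  | succ n ih =>
    intro a b b' ha hb
    have key : ∀ c : ℕ → ℕ, ∑ i ∈ Finset.range (n + 1), a i * c i =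
        ∑ i ∈ Finset.range n, (a i - a n) * c i + a n * ∑ i ∈ Finset.range (n + 1), c i := by
      intro c
      have h1 : ∀ i ∈ Finset.range (n + 1), a i * c i = (a i - a n) * c i + a n * c i := by
        intro i hi
        have hle : a n ≤ a i := ha i (Finset.mem_range.mp hi) n (Nat.lt_succ_self n)
          (Nat.lt_succ_iff.mp (Finset.mem_range.mp hi))
        rw [← Nat.add_mul, Nat.sub_add_cancel hle]
      rw [Finset.sum_congr rfl h1, Finset.sum_add_distrib, ← Finset.mul_sum,
        Finset.sum_range_succ (fun i => (a i - a n) * c i)]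
      simp
    rw [key b, key b']
    have h2 := ih (fun i => a i - a n) b b'
      (fun i hi j hj hij => Nat.sub_le_sub_right (ha i (by omega) j (by omega) hij) _)
      (fun k hk => hb k (by omega))
    exact Nat.add_le_add h2 (Nat.mul_le_mul_left _ (hb (n + 1) le_rfl))

/-- A nonempty finite set can be enumerated with nonincreasing values. -/
theorem rearr_enum {ι : Type*} [DecidableEq ι] [Nonempty ι] (y : ι → ℕ) (n : ℕ) :
    ∀ J : Finset ι, J.card = n → ∃ f : ℕ → ι, (∀ i < n, f i ∈ J) ∧
      (∀ i < n, ∀ j < n, f i = f j → i = j) ∧ (∀ i < n, ∀ j < n, i ≤ j → y (f j) ≤ y (f i)) := by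
  induction n with
  | zero =>
    intro J _
    exact ⟨fun _ => Classical.arbitrary ι, by simp, by simp, by simp⟩
  | succ n ih =>
    intro J hJ
    have hne : J.Nonempty := by
      rw [← Finset.card_pos]; omega
    obtain ⟨j0, hj0, hmin⟩ := Finset.exists_min_image J y hne
    obtain ⟨f, hf1, hf2, hf3⟩ := ih (J.erase j0) (by rw [Finset.card_erase_of_mem hj0]; omega)
    refine ⟨fun i => if i < n then f i else j0, ?_, ?_, ?_⟩
    · intro i hi
      by_cases h : i < n
      · simpa only [h, if_true] using Finset.mem_of_mem_erase (hf1 i h)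
      · simpa only [h, if_false] using hj0
    · intro i hi j hj hij
      by_cases h : i < n <;> by_cases h' : j < n
      · simp only [h, h', if_true] at hij
        exact hf2 i h j h' hij
      · simp only [h, h', if_true, if_false] at hij
        exact absurd hij (Finset.ne_of_mem_erase (hf1 i h))
      · simp only [h, h', if_true, if_false] at hij
        exact absurd hij.symm (Finset.ne_of_mem_erase (hf1 j h'))
      · omega
    · intro i hi j hj hij
      by_cases h : i < n <;> by_cases h' : j < n
      · simp only [h, h', if_true]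
        exact hf3 i h j h' hij
      · simp only [h, h', if_true, if_false]
        exact hmin _ (Finset.mem_of_mem_erase (hf1 i h))
      · omega
      · simp only [h, h', if_false]
        exact le_rfl

theorem rearr {ι : Type*} [DecidableEq ι] (J : Finset ι) (x y : ι → ℕ) (h h' : ℕ → ℕ)
    (ha : ∀ i < J.card, ∀ j < J.card, i ≤ j → h j ≤ h i)
    (ha' : ∀ i < J.card, ∀ j < J.card, i ≤ j → h' j ≤ h' i)
    (hx : ∀ S ⊆ J, ∑ j ∈ S, x j ≤ ∑ i ∈ Finset.range S.card, h i)
    (hy : ∀ S ⊆ J, ∑ j ∈ S, y j ≤ ∑ i ∈ Finset.range S.card, h' i) :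
    ∑ j ∈ J, x j * y j ≤ ∑ i ∈ Finset.range J.card, h i * h' i := by
  rcases J.eq_empty_or_nonempty with rfl | hne
  · simp
  have : Nonempty ι := ⟨hne.choose⟩
  obtain ⟨f, hf1, hf2, hf3⟩ := rearr_enum y J.card J rfl
  have hinj : ∀ k ≤ J.card, Set.InjOn f (Finset.range k : Finset ℕ) := by
    intro k hk i hi j hj hij
    have hi' := Finset.mem_range.mp (Finset.mem_coe.mp hi)
    have hj' := Finset.mem_range.mp (Finset.mem_coe.mp hj)
    exact hf2 i (by omega) j (by omega) hij
  have hsub : ∀ k ≤ J.card, (Finset.range k).image f ⊆ J := by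
    intro k hk j hj
    obtain ⟨i, hi, rfl⟩ := Finset.mem_image.mp hj
    exact hf1 i (by have := Finset.mem_range.mp hi; omega)
  have hcard : ∀ k ≤ J.card, ((Finset.range k).image f).card = k := by
    intro k hk
    rw [Finset.card_image_of_injOn (hinj k hk), Finset.card_range]
  have hsum : ∀ k ≤ J.card, ∀ g : ι → ℕ,
      ∑ j ∈ (Finset.range k).image f, g j = ∑ i ∈ Finset.range k, g (f i) := by
    intro k hk g
    exact Finset.sum_image (fun i hi j hj hij => hinj k hk hi hj hij)
  have hall : (Finset.range J.card).image f = J :=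
    Finset.eq_of_subset_of_card_le (hsub _ le_rfl) (by rw [hcard _ le_rfl])
  have hx' : ∀ k ≤ J.card, ∑ i ∈ Finset.range k, x (f i) ≤ ∑ i ∈ Finset.range k, h i := by
    intro k hk
    have := hx _ (hsub k hk)
    rwa [hsum k hk, hcard k hk] at this
  have hy' : ∀ k ≤ J.card, ∑ i ∈ Finset.range k, y (f i) ≤ ∑ i ∈ Finset.range k, h' i := by
    intro k hk
    have := hy _ (hsub k hk)
    rwa [hsum k hk, hcard k hk] at this
  have e1 : ∑ j ∈ J, x j * y j = ∑ i ∈ Finset.range J.card, y (f i) * x (f i) := by
    conv_lhs => rw [← hall]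
    rw [hsum _ le_rfl]
    exact Finset.sum_congr rfl (fun i _ => Nat.mul_comm _ _)
  rw [e1]
  have s1 := rearr_abel J.card (fun i => y (f i)) (fun i => x (f i)) h hf3 hx'
  have s2 := rearr_abel J.card h (fun i => y (f i)) h' ha hy'
  refine s1.trans (le_trans (le_of_eq ?_) s2)
  exact Finset.sum_congr rfl (fun i _ => Nat.mul_comm _ _)

end CY
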